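import Pool.Agent.Y782.WU.Stm

set_option autoImplicit false

open MeasureTheory ProbabilityTheory Filter Topology
open scoped ENNReal NNReal BigOperators unitInterval

namespace Pool.Agent.Y380.WU

open Pool.Agent.Y782.WU

variable {V : Type}

theorem dgr_comap (τ : Equiv.Perm V) (G : SimpleGraph V) (v : V) :
    dgr (G.comap τ) v = dgr G (τ v) := by
  unfold dgr
  have h : G.neighborSet (τ v) = τ '' ((G.comap τ).neighborSet v) := by
    ext w
    constructor
    · intro hw
      refine ⟨τ.symm w, ?_, by simp⟩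
      simpa [SimpleGraph.mem_neighborSet] using hw
    · rintro ⟨z, hz, rfl⟩
      simpa [SimpleGraph.mem_neighborSet] using hz
  rw [h, Set.ncard_image_of_injective _ τ.injective]

theorem stp_comap (τ : Equiv.Perm V) (G : SimpleGraph V) (v w : V) :
    stp (G.comap τ) v w = stp G (τ v) (τ w) := by
  unfold stp
  rw [dgr_comap]
  by_cases h : G.Adj (τ v) (τ w)
  · rw [if_pos h, if_pos (show (G.comap τ).Adj v w from h)]
  · rw [if_neg h, if_neg (show ¬ (G.comap τ).Adj v w from h)]

theorem pn_comap (τ : Equiv.Perm V) (G : SimpleGraph V) (n : ℕ) :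
    ∀ v w : V, pn (G.comap τ) n v w = pn G n (τ v) (τ w) := by
  induction n with
  | zero =>
    intro v w
    simp only [pn]
    by_cases h : v = w
    · rw [if_pos h, if_pos (by rw [h])]
    · rw [if_neg h, if_neg (fun he => h (τ.injective he))]
  | succ n ih =>
    intro v w
    simp only [pn]
    rw [← Equiv.tsum_eq τ (fun z => stp G (τ v) z * pn G n z (τ w))]
    refine tsum_congr (fun z => ?_)
    rw [stp_comap, ih]

theorem ab_comap (τ : Equiv.Perm V) (G : SimpleGraph V) (k : ℕ) (v w : V) :
    ab (G.comap τ) k v w = ab G k (τ v) (τ w) := by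
  unfold ab
  refine tsum_congr (fun n => ?_)
  rw [pn_comap]

theorem l1_comap (τ : Equiv.Perm V) (a b : V → ℝ≥0∞) :
    l1 (fun c => a (τ c)) (fun c => b (τ c)) = l1 a b := by
  unfold l1
  exact Equiv.tsum_eq τ (fun c => (a c - b c) + (b c - a c))

theorem qq_comap (τ : Equiv.Perm V) (G : SimpleGraph V) (k : ℕ) (v : V) :
    qq (G.comap τ) k v = qq G k (τ v) := by
  classical
  unfold qq
  rw [← Equiv.tsum_eq τ (fun w => if G.Adj (τ v) w then l1 (ab G k (τ v)) (ab G k w) else 0)]
  refine tsum_congr (fun w => ?_)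
  have h1 : ab (G.comap τ) k v = fun c => ab G k (τ v) (τ c) := funext (fun c => ab_comap τ G k v c)
  have h2 : ab (G.comap τ) k w = fun c => ab G k (τ w) (τ c) := funext (fun c => ab_comap τ G k w c)
  rw [h1, h2, l1_comap]
  by_cases h : G.Adj (τ v) (τ w)
  · rw [if_pos h, if_pos (show (G.comap τ).Adj v w from h)]
  · rw [if_neg h, if_neg (show ¬ (G.comap τ).Adj v w from h)]

theorem win_comap (τ : Equiv.Perm V) (a : V → ℝ≥0∞) (E : V → ℝ) (c : V) :
    win (fun c => a (τ c)) (fun c => E (τ c)) c ↔ win a E (τ c) := by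
  unfold win
  refine and_congr Iff.rfl ?_
  constructor
  · intro h c' hc'
    have := h (τ.symm c') (fun he => hc' (by rw [← he]; simp))
    simpa using this
  · intro h c' hc'
    exact h (τ c') (fun he => hc' (τ.injective he))

theorem sm_comap (τ : Equiv.Perm V) (a b : V → ℝ≥0∞) (E : V → ℝ) :
    sm (fun c => a (τ c)) (fun c => b (τ c)) (fun c => E (τ c)) ↔ sm a b E := by
  unfold sm
  constructor
  · rintro ⟨c, h1, h2⟩
    exact ⟨τ c, (win_comap τ a E c).1 h1, (win_comap τ b E c).1 h2⟩
  · rintro ⟨c, h1, h2⟩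
    refine ⟨τ.symm c, (win_comap τ a E _).2 (by simpa using h1), (win_comap τ b E _).2 (by simpa using h2)⟩

/-- WU-EQ1 -/
theorem eq1 : S_EQ1 := by
  intro V τ ks G r n
  cases n with
  | zero =>
    ext v w
    simp [Hg]
  | succ n =>
    ext v w
    have key : ∀ v w : V, (∀ m ≥ n, sm (ab (G.comap τ) (ks m) v) (ab (G.comap τ) (ks m) w)
        (fun c => er (r (τ c) m))) ↔ (∀ m ≥ n, sm (ab G (ks m) (τ v)) (ab G (ks m) (τ w))
        (fun c => er (r c m))) := by
      intro v w
      refine forall_congr' (fun m => imp_congr_right (fun _ => ?_))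
      have h1 : ab (G.comap τ) (ks m) v = fun c => ab G (ks m) (τ v) (τ c) :=
        funext (fun c => ab_comap τ G (ks m) v c)
      have h2 : ab (G.comap τ) (ks m) w = fun c => ab G (ks m) (τ w) (τ c) :=
        funext (fun c => ab_comap τ G (ks m) w c)
      rw [h1, h2]
      exact sm_comap τ (ab G (ks m) (τ v)) (ab G (ks m) (τ w)) (fun c => er (r c m))
    simp only [Hg, SimpleGraph.comap_adj, SimpleGraph.fromRel_adj, key, ne_eq, τ.injective.eq_iff]

end Pool.Agent.Y380.WU
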